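import Pool.Agent.Y661.HE.Stm

/-!
# Project HE (helper661): measurability of the correctors
-/

set_option autoImplicit false

open scoped BigOperators ENNReal
open MeasureTheory Filter

namespace Pool.Agent.Y758.HE.MEA

open Pool.Agent.H12R2.And (V ee Q pot PP Dep Good)
open Pool.Agent.H4R2.HD (Av Gn ind)
open Pool.Agent.Y661.HE

variable {d : ℕ}

theorem av (f : (V d → ℝ) → V d → ℝ) (hf : ∀ y, Measurable fun W => f W y) (y : V d) :
    Measurable fun W => Av (f W) y := by
  unfold Av
  refine Measurable.div_const ?_ _
  exact Finset.measurable_fun_sum _ fun i _ => (hf _).add (hf _)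

theorem avi (m : ℕ) : ∀ (f : (V d → ℝ) → V d → ℝ), (∀ y, Measurable fun W => f W y) →
    ∀ y : V d, Measurable fun W => (Av^[m] (f W)) y := by
  induction m with
  | zero => exact fun f hf y => hf y
  | succ m ih =>
    intro f hf y
    exact ih (fun W => Av (f W)) (av f hf) y

theorem gna (N : ℕ) (f : (V d → ℝ) → V d → ℝ) (hf : ∀ y, Measurable fun W => f W y) (y : V d) :
    Measurable fun W => Gn N (f W) y := by
  unfold Gn
  refine Measurable.div_const ?_ _
  exact Finset.measurable_fun_sum _ fun i _ => avi i f hf y

theorem gg (N : ℕ) (P : Measure (V d → ℝ)) (n : ℕ)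
    (h : ∀ k, k ≤ n → ∀ x, Measurable fun W => un N P k W x) (x : V d) :
    Measurable fun W => gn N P n W x := by
  unfold gn
  refine Measurable.add ?_ ?_
  · exact ((measurable_pi_apply x).mul (h n le_rfl x)).neg
  · exact Finset.measurable_fun_sum _ fun k _ => (h (n - k) (Nat.sub_le _ _) x).const_mul _

theorem uu (N : ℕ) (P : Measure (V d → ℝ)) (n : ℕ) : ∀ x, Measurable fun W => un N P n W x := by
  induction n using Nat.strong_induction_on with
  | _ n ih =>
    intro x
    rcases n with _ | n
    · simp only [un_zero]
      exact measurable_const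
    · simp only [un_succ]
      exact gna N _ (gg N P n fun k hk => ih k (by omega)) x

theorem main : S_MEA := by
  intro d N P n m x
  have h1 : ∀ x, Measurable fun W => gn N P n W x := gg N P n fun k _ => uu N P k
  exact ⟨uu N P n x, h1 x, avi m _ h1 x⟩

end Pool.Agent.Y758.HE.MEA
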